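import Mathlib
import Pool.Agent.Q290.FLD.Upper

set_option autoImplicit false

namespace Pool.Agent.Results.MP_5b7fe5_co.ExactAtPowers

open Pool.Agent.Q290.FLD

/-- For all `t ≥ 2` and all `k ≥ 0` the fractional local `t`-dimension of the chain with `t ^ k`
elements is exactly `k`. -/
theorem result (t : ℕ) (ht : 2 ≤ t) (k : ℕ) : fldim t (Fin (t ^ k)) = k :=
  fldim_pow ht k

end Pool.Agent.Results.MP_5b7fe5_co.ExactAtPowers
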